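import Pool.Agent.H10.LDV2.Stmts

/-!
# LDV2, row CHU: choice lemma for `1 / 3 ≤ m ≤ 5 / 11`
-/

set_option autoImplicit false

namespace Pool.LDV2

open Finset Pool.Agent.H98.ABCR Pool.SHA Pool.BL

theorem chu_thm : S_CHU := by
  intro J m p t a hJ hm1 hm2 hp ht hsum hi ha
  by_contra hA
  have hIcc : Icc 1 J = insert 1 (Icc 2 J) := by
    ext n
    simp only [mem_Icc, mem_insert]
    omega
  have hnot : (1 : ℕ) ∉ Icc 2 J := by simp
  have hs1 : ∀ l, ∑ e ∈ Icc 1 J, p l e = p l 1 + ∑ e ∈ Icc 2 J, p l e := by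
    intro l
    rw [hIcc, sum_insert hnot]
  have hs2 : ∀ l, ∑ e ∈ Icc 1 J, (e : ℝ) * p l e = p l 1 + ∑ e ∈ Icc 2 J, (e : ℝ) * p l e := by
    intro l
    rw [hIcc, sum_insert hnot]
    push_cast
    ring
  have hs3 : ∀ l, 2 * ∑ e ∈ Icc 2 J, p l e ≤ ∑ e ∈ Icc 2 J, (e : ℝ) * p l e := by
    intro l
    rw [mul_sum]
    refine sum_le_sum fun e he => ?_
    have h2 : (2 : ℝ) ≤ e := by exact_mod_cast (mem_Icc.mp he).1
    exact mul_le_mul_of_nonneg_right h2 (hp l e)
  have hG : ∀ l, t l + ∑ e ∈ Icc 1 J, (e : ℝ) * p l e ≤ m := by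
    intro l
    by_cases h : l = a
    · rw [h]
      exact ha
    · exact (hi l h).le
  have hpair : ∀ j k : Fin 3, j ≠ k →
      1 - m < ∑ e ∈ Icc 1 J, p j e + ∑ e ∈ Icc 1 J, p k e := by
    intro j k hjk
    by_contra h
    exact hA (Or.inl ⟨j, k, hjk, le_of_not_gt h⟩)
  have main : ∀ i j k : Fin 3, i ≠ j → i ≠ k → j ≠ k → i ≠ a →
      ∑ e ∈ Icc 1 J, p i e + ∑ e ∈ Icc 1 J, p j e + ∑ e ∈ Icc 1 J, p k e ≤ 1 → False := by
    intro i j k hij hik hjk hia hX
    apply hA
    right; right; right; left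
    refine ⟨i, j, k, Icc 2 J, 1, hij, hik, hjk, Icc_subset_Icc_left (by norm_num),
      mem_Icc.mpr ⟨le_rfl, by omega⟩, ?_⟩
    have e0 := hi i hia
    have p1 := hpair i j hij
    have p2 := hpair i k hik
    have p3 := hpair j k hjk
    have g1 := hG i
    have g2 := hG j
    have g3 := hG k
    have t1 := ht i
    have t2 := ht j
    have t3 := ht k
    have c1 := hs3 i
    have c2 := hs3 j
    have c3 := hs3 k
    have q1 := hp i 1
    have q2 := hp j 1
    have q3 := hp k 1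
    simp only [hs1, hs2] at *
    rcases le_total (p j 1 + p k 1 - (t i + ∑ n ∈ Icc 2 J, (n : ℝ) * p i n)) 0 with h | h
    · rw [max_eq_left h]
      linarith
    · rw [max_eq_right h]
      linarith
  rw [Fin.sum_univ_three] at hsum
  fin_cases a
  · exact main 1 0 2 (by decide) (by decide) (by decide) (by decide) (by linarith)
  · exact main 0 1 2 (by decide) (by decide) (by decide) (by decide) (by linarith)
  · exact main 0 1 2 (by decide) (by decide) (by decide) (by decide) (by linarith)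

end Pool.LDV2
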