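import Pool.Agent.H10.LDV2.Stmts2

/-!
# LDV2, row BLK: the linear programme for a set of exponents at least five
-/

set_option autoImplicit false

namespace Pool.LDV2

theorem phi4_cases67 (x g : ℝ) : Phi4 x g = x ∨ Phi4 x g = 27 * x / 20 - 7 * g / 40 ∨
    Phi4 x g = 73 * x / 40 - 13 * g / 20 ∨ Phi4 x g = 2 * x - g := by
  unfold Phi4
  rcases max_choice x (max (27 * x / 20 - 7 * g / 40) (max (73 * x / 40 - 13 * g / 20) (2 * x - g)))
    with h | h
  · exact Or.inl h
  · rcases max_choice (27 * x / 20 - 7 * g / 40) (max (73 * x / 40 - 13 * g / 20) (2 * x - g))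
      with h' | h'
    · exact Or.inr (Or.inl (h.trans h'))
    · rcases max_choice (73 * x / 40 - 13 * g / 20) (2 * x - g) with h'' | h''
      · exact Or.inr (Or.inr (Or.inl (h.trans (h'.trans h''))))
      · exact Or.inr (Or.inr (Or.inr (h.trans (h'.trans h''))))

theorem blk_thm : S_BLK := by
  intro x xj xk k g hx hj hk hs h1 h2 h3 hk1 hk2 hg
  rcases phi4_cases67 xj g with a | a | a | a <;> rcases phi4_cases67 xk g with b | b | b | b <;>
    rw [a, b] <;> linarith only [hx, hj, hk, hs, h1, h2, h3, hk1, hk2, hg]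

end Pool.LDV2
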